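import Pool.Agent.W397.EO.Stm

/-!
Project EO, part CLS: the class bound.
-/

set_option autoImplicit false

namespace Pool.Agent.W724.EO.CLS

open Finset Pool.Agent.W397.EO

theorem out_card {V : Type} [Fintype V] [DecidableEq V] {G : SimpleGraph V} [DecidableRel G.Adj]
    {v : V} {h : ℕ} (hdeg : G.degree v = 2 * h) {o : V → V → Bool} (ho : o ∈ eo V G) :
    (Finset.univ.filter (fun w => o v w = true)).card = h := by
  simp only [eo, mem_filter, mem_univ, true_and] at ho
  obtain ⟨ho1, ho2, ho3⟩ := ho
  have hd : Disjoint (Finset.univ.filter (fun w => o v w = true))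
      (Finset.univ.filter (fun w => o w v = true)) := by
    rw [Finset.disjoint_left]
    intro w h1 h2
    simp only [mem_filter, mem_univ, true_and] at h1 h2
    have := (ho2 v w (ho1 _ _ h1)).1 h1
    rw [h2] at this
    exact absurd this (by decide)
  have hu : (Finset.univ.filter (fun w => o v w = true)) ∪
      (Finset.univ.filter (fun w => o w v = true)) = G.neighborFinset v := by
    ext w
    simp only [mem_union, mem_filter, mem_univ, true_and, SimpleGraph.mem_neighborFinset]
    constructor
    · rintro (h1 | h1)
      · exact ho1 _ _ h1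
      · exact (ho1 _ _ h1).symm
    · intro hadj
      cases h1 : o v w with
      | true => exact Or.inl rfl
      | false => exact Or.inr ((ho2 w v hadj.symm).2 h1)
  have hc := congrArg Finset.card hu
  rw [card_union_of_disjoint hd, G.card_neighborFinset_eq_degree, hdeg, ← ho3 v] at hc
  omega

theorem main : Pool.Agent.W397.EO.S_CLS := by
  intro V _ _ G _ σ v h hdeg o ho
  have ho0 := ho
  simp only [eo, mem_filter, mem_univ, true_and] at ho
  obtain ⟨ho1, ho2, ho3⟩ := ho
  set P := Finset.univ.filter (fun w => o v w = true ∧ σ w < σ v) with hP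
  set Q := Finset.univ.filter (fun w => o w v = true ∧ σ w < σ v) with hQ
  set L := Finset.univ.filter (fun w => G.Adj v w ∧ σ v < σ w) with hL
  have hne : ∀ w, G.Adj v w → σ w < σ v ∨ σ v < σ w := by
    intro w hadj
    rcases lt_trichotomy (σ w) (σ v) with h1 | h1 | h1
    · exact Or.inl h1
    · exact absurd (σ.injective h1) hadj.ne'
    · exact Or.inr h1
  have hcard : L.card = 2 * h - (P.card + Q.card) := by
    have hd1 : Disjoint P Q := by
      rw [Finset.disjoint_left]
      intro w h1 h2
      simp only [hP, hQ, mem_filter, mem_univ, true_and] at h1 h2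
      have := (ho2 v w (ho1 _ _ h1.1)).1 h1.1
      rw [h2.1] at this
      exact absurd this (by decide)
    have hd2 : Disjoint L (P ∪ Q) := by
      rw [Finset.disjoint_left]
      intro w h1 h2
      simp only [hL, hP, hQ, mem_union, mem_filter, mem_univ, true_and] at h1 h2
      rcases h2 with h2 | h2
      · exact lt_asymm h1.2 h2.2
      · exact lt_asymm h1.2 h2.2
    have hu : L ∪ (P ∪ Q) = G.neighborFinset v := by
      ext w
      simp only [hL, hP, hQ, mem_union, mem_filter, mem_univ, true_and,
        SimpleGraph.mem_neighborFinset]
      constructor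
      · rintro (h1 | h1 | h1)
        · exact h1.1
        · exact ho1 _ _ h1.1
        · exact (ho1 _ _ h1.1).symm
      · intro hadj
        rcases hne w hadj with h2 | h2
        · cases h1 : o v w with
          | true => exact Or.inr (Or.inl ⟨rfl, h2⟩)
          | false => exact Or.inr (Or.inr ⟨(ho2 w v hadj.symm).2 h1, h2⟩)
        · exact Or.inl ⟨hadj, h2⟩
    have hc := congrArg Finset.card hu
    rw [card_union_of_disjoint hd2, card_union_of_disjoint hd1, G.card_neighborFinset_eq_degree,
      hdeg] at hc
    omega
  -- the continuations
  let g : Finset V → V → V → Bool := fun T u w =>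
    if (σ u : ℕ) < σ v ∨ (σ w : ℕ) < σ v then o u w else if u = v then decide (w ∈ T)
    else if w = v then decide (u ∈ L ∧ u ∉ T) else false
  have hsub : ((eo V G).filter (fun o' => rr σ (σ v : ℕ) o' = rr σ (σ v : ℕ) o)).image
      (rr σ ((σ v : ℕ) + 1)) ⊆ (powersetCard (h - P.card) L).image g := by
    intro q hq
    rw [mem_image] at hq
    obtain ⟨o', ho', rfl⟩ := hq
    rw [mem_filter] at ho'
    obtain ⟨ho'0, hcl⟩ := ho'
    have hout := out_card hdeg ho'0
    simp only [eo, mem_filter, mem_univ, true_and] at ho'0
    obtain ⟨p1, p2, p3⟩ := ho'0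
    have hagree : ∀ u w, ((σ u : ℕ) < σ v ∨ (σ w : ℕ) < σ v) → o' u w = o u w := by
      intro u w huw
      have := congrFun (congrFun hcl u) w
      simp only [rr, if_pos huw] at this
      exact this
    have hPo : Finset.univ.filter (fun w => o' v w = true) = P ∪ L.filter (fun w => o' v w = true) := by
      ext w
      simp only [hL, hP, mem_union, mem_filter, mem_univ, true_and]
      constructor
      · intro h1
        rcases hne w (p1 _ _ h1) with h2 | h2
        · left
          rw [← hagree v w (Or.inr h2)]
          exact ⟨h1, h2⟩
        · exact Or.inr ⟨⟨p1 _ _ h1, h2⟩, h1⟩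
      · rintro (h1 | h1)
        · rw [hagree v w (Or.inr h1.2)]
          exact h1.1
        · exact h1.2
    have hdisj : Disjoint P (L.filter (fun w => o' v w = true)) := by
      rw [Finset.disjoint_left]
      intro w h1 h2
      simp only [hL, hP, mem_filter, mem_univ, true_and] at h1 h2
      exact lt_asymm h1.2 h2.1.2
    rw [hPo, card_union_of_disjoint hdisj] at hout
    rw [mem_image]
    refine ⟨L.filter (fun w => o' v w = true), ?_, ?_⟩
    · rw [mem_powersetCard]
      exact ⟨filter_subset _ _, by omega⟩
    · funext u w
      simp only [g, rr]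
      by_cases hA : (σ u : ℕ) < σ v ∨ (σ w : ℕ) < σ v
      · have hB : (σ u : ℕ) < (σ v : ℕ) + 1 ∨ (σ w : ℕ) < (σ v : ℕ) + 1 := by omega
        rw [if_pos hA, if_pos hB, hagree u w hA]
      · rw [if_neg hA]
        push Not at hA
        by_cases hu : u = v
        · subst hu
          have hB : (σ u : ℕ) < (σ u : ℕ) + 1 ∨ (σ w : ℕ) < (σ u : ℕ) + 1 := Or.inl (by omega)
          rw [if_pos rfl, if_pos hB]
          cases h1 : o' u w with
          | true =>
            rw [decide_eq_true_eq, mem_filter, hL, mem_filter]
            refine ⟨⟨mem_univ _, p1 _ _ h1, ?_⟩, h1⟩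
            rcases hne w (p1 _ _ h1) with h2 | h2
            · exact absurd (Fin.lt_def.1 h2) (by omega)
            · exact h2
          | false =>
            rw [decide_eq_false_iff_not, mem_filter]
            rintro ⟨_, h2⟩
            rw [h1] at h2
            exact absurd h2 (by decide)
        · rw [if_neg hu]
          by_cases hw : w = v
          · subst hw
            have hB : (σ u : ℕ) < (σ w : ℕ) + 1 ∨ (σ w : ℕ) < (σ w : ℕ) + 1 := Or.inr (by omega)
            rw [if_pos rfl, if_pos hB]
            cases h1 : o' u w with
            | true =>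
              have hadj := p1 _ _ h1
              rw [decide_eq_true_eq, mem_filter, hL, mem_filter]
              have h3 := (p2 u w hadj).1 h1
              refine ⟨⟨mem_univ _, hadj.symm, ?_⟩, ?_⟩
              · rcases hne u hadj.symm with h2 | h2
                · exact absurd (Fin.lt_def.1 h2) (by omega)
                · exact h2
              · rintro ⟨_, h4⟩
                rw [h3] at h4
                exact absurd h4 (by decide)
            | false =>
              rw [decide_eq_false_iff_not]
              rintro ⟨h2, h3⟩
              have hadj : G.Adj w u := (mem_filter.1 h2).2.1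
              have h4 : o' w u ≠ true := fun h5 => h3 (mem_filter.2 ⟨h2, h5⟩)
              have h5 : o' w u = false := by simpa using h4
              have h6 := (p2 u w hadj.symm).2 h5
              rw [h1] at h6
              exact absurd h6 (by decide)
          · have hB : ¬ ((σ u : ℕ) < (σ v : ℕ) + 1 ∨ (σ w : ℕ) < (σ v : ℕ) + 1) := by
              have h1 : (σ u : ℕ) ≠ σ v := fun h => hu (σ.injective (Fin.ext h))
              have h2 : (σ w : ℕ) ≠ σ v := fun h => hw (σ.injective (Fin.ext h))
              omega
            rw [if_neg hw, if_neg hB]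
  have hfin : (((eo V G).filter (fun o' => rr σ (σ v : ℕ) o' = rr σ (σ v : ℕ) o)).image
      (rr σ ((σ v : ℕ) + 1))).card ≤ (2 * h - (P.card + Q.card)).choose (h - P.card) := by
    refine (card_le_card hsub).trans (card_image_le.trans ?_)
    rw [card_powersetCard, hcard]
  exact_mod_cast hfin

end Pool.Agent.W724.EO.CLS
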